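import Mathlib
import Pool.Agent.L5helper89.HB.Hyp2

/-!
# Matroids that are not covered by few hyperplanes
-/

set_option autoImplicit false

namespace Pool.Agent.Results.MP_49b0db_co.FewHyperplanes

open Pool.Agent.L5helper89.HB (IsHilbert circ)

/-- Let `M` be a loopless matroid of rank `r ≥ 2`, and let `N` be at least `2 r - 1` and at least
`d (d + 1) / 2` for every proper divisor `d` of `r + 1`. Suppose that the ground set is not the
union of at most `N` sets of rank less than `r`. Then the circuits of `M` form a Hilbert basis if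
and only if `M` is uniform. -/
theorem result {α : Type} [Fintype α] [DecidableEq α] (M : Matroid α) (r N : ℕ)
    (hE : M.E = Set.univ) (hr2 : 2 ≤ r) (hr : M.eRank = r) (hl : ∀ a, M.Indep {a})
    (hN1 : 2 * r - 1 ≤ N) (hN2 : ∀ d, d ∣ r + 1 → d < r + 1 → (d + 1).choose 2 ≤ N)
    (hH : ∀ H : Finset (Set α), H.card ≤ N → (∀ X ∈ H, M.eRk X < M.eRank) →
      ∃ w, ∀ X ∈ H, w ∉ X) :
    IsHilbert (circ M) ↔ ∀ S : Finset α, S.card ≤ r → M.Indep (S : Set α) :=
  Pool.Agent.L5helper89.HB.few_hyperplanes hE hr2 hr hl hN1 hN2 hH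

end Pool.Agent.Results.MP_49b0db_co.FewHyperplanes
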