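import Mathlib
import Pool.Agent.L5helper89.HB.Final

/-!
# Nonbinary matroids of rank three whose circuits form a Hilbert basis
-/

set_option autoImplicit false

namespace Pool.Agent.Results.MP_49b0db_co.RankThree

open Pool.Agent.L5helper89.HB (IsHilbert circ HasU24Minor)

/-- Let `M` be a loopless matroid of rank three that has `U_{2,4}` as a minor (that is, `M` is not
binary). Then the circuits of `M` form a Hilbert basis if and only if one of the following holds:
all three-element sets are independent; or `M` is simple and the ground set is the union of two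
disjoint sets `A`, `B` such that a set of three elements is dependent exactly when it is contained
in `A` or in `B`; or there are disjoint sets `P`, `Q`, where `Q` has at most one element, such that
a set of two elements is dependent exactly when it is contained in `P`, and a set of three
elements is dependent exactly when two of its elements are in `P` or it is disjoint from `P`
and `Q`. -/
theorem result {α : Type} [Fintype α] [DecidableEq α] (M : Matroid α) (hE : M.E = Set.univ)
    (hr : M.eRank = 3) (hl : ∀ a, M.Indep {a}) (hU : HasU24Minor M) :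
    IsHilbert (circ M) ↔
      (∀ a b c, M.Indep {a, b, c}) ∨
      (∃ A : Set α, (∀ a b, M.Indep {a, b}) ∧ ∀ a b c, a ≠ b → a ≠ c → b ≠ c →
        (¬ M.Indep {a, b, c} ↔ (a ∈ A ∧ b ∈ A ∧ c ∈ A) ∨ (a ∉ A ∧ b ∉ A ∧ c ∉ A))) ∨
      (∃ P Q : Set α, Disjoint P Q ∧ Q.Subsingleton ∧
        (∀ a b, a ≠ b → (¬ M.Indep {a, b} ↔ a ∈ P ∧ b ∈ P)) ∧
        ∀ a b c, a ≠ b → a ≠ c → b ≠ c → (¬ M.Indep {a, b, c} ↔
          (a ∈ P ∧ b ∈ P) ∨ (a ∈ P ∧ c ∈ P) ∨ (b ∈ P ∧ c ∈ P) ∨
            (a ∉ P ∪ Q ∧ b ∉ P ∪ Q ∧ c ∉ P ∪ Q))) :=
  Pool.Agent.L5helper89.HB.classification hE hr hl hU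

end Pool.Agent.Results.MP_49b0db_co.RankThree
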